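import Pool.Agent.H12.KTH.Stmts

/-!
# KTH, row CEN: entropy of an integer near a centre
-/

set_option autoImplicit false

namespace Pool.KTH

open Finset Real
open Pool.Agent.H49.Ent Pool.Agent.H32.Dense

namespace CEN25

lemma sum_nat {K : ℝ} (hK : 1 ≤ K) (n : ℕ) :
    ∑ k ∈ Finset.range n, K / (K + k) ^ 2 ≤ 2 := by
  have key : ∀ n : ℕ, ∑ k ∈ Finset.range n, K / (K + k) ^ 2 ≤ 2 - 2 * K / (K + n) := by
    intro n
    induction n with
    | zero =>
      have : 2 * K / K = 2 := by field_simp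
      simp [this]
    | succ n ih =>
      rw [Finset.sum_range_succ]
      have hn : (0 : ℝ) ≤ n := Nat.cast_nonneg n
      have h1 : K / (K + n) ^ 2 ≤ 2 * K / (K + n) - 2 * K / (K + ((n + 1 : ℕ) : ℝ)) := by
        push_cast
        have h2 : 2 * K / (K + n) - 2 * K / (K + (n + 1)) = 2 * K / ((K + n) * (K + (n + 1))) := by
          have e1 : K + n ≠ 0 := by positivity
          have e2 : K + (n + 1) ≠ 0 := by positivity
          field_simp
          ring
        rw [h2, div_le_div_iff₀ (by positivity) (by positivity)]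
        nlinarith [mul_nonneg (show (0 : ℝ) ≤ K by linarith) (show (0 : ℝ) ≤ K + n by linarith)]
      linarith
  have h0 : 0 ≤ 2 * K / (K + n) := by positivity
  linarith [key n]

lemma sum_int {K : ℝ} (hK : 1 ≤ K) (x : ℝ) (F : Finset ℤ) :
    ∑ n ∈ F, K / (K + |(n : ℝ) - x|) ^ 2 ≤ 4 := by
  classical
  have key : ∀ (G : Finset ℤ) (φ : ℤ → ℕ), Set.InjOn φ (G : Set ℤ) →
      (∀ n ∈ G, (φ n : ℝ) ≤ |(n : ℝ) - x|) → ∑ n ∈ G, K / (K + |(n : ℝ) - x|) ^ 2 ≤ 2 := by
    intro G φ hφ hG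
    have e1 : ∑ n ∈ G, K / (K + |(n : ℝ) - x|) ^ 2 ≤ ∑ n ∈ G, K / (K + (φ n : ℝ)) ^ 2 := by
      refine Finset.sum_le_sum fun n hn => ?_
      have h1 := hG n hn
      have h2 : (0 : ℝ) ≤ (φ n : ℝ) := Nat.cast_nonneg _
      gcongr
    have e2 : ∑ n ∈ G, K / (K + (φ n : ℝ)) ^ 2 = ∑ k ∈ G.image φ, K / (K + (k : ℝ)) ^ 2 := by
      rw [Finset.sum_image hφ]
    obtain ⟨N, hN⟩ : ∃ N, G.image φ ⊆ Finset.range N := by
      refine ⟨(G.image φ).sup (fun k => k) + 1, fun k hk => ?_⟩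
      rw [Finset.mem_range]
      exact Nat.lt_succ_of_le (Finset.le_sup (f := fun k => k) hk)
    rw [e2] at e1
    exact e1.trans ((Finset.sum_le_sum_of_subset_of_nonneg hN
      (fun _ _ _ => by positivity)).trans (sum_nat hK N))
  have h1 := key (F.filter fun n => ⌈x⌉ ≤ n) (fun n => (n - ⌈x⌉).toNat) (by
    intro a ha b hb h
    simp only [coe_filter, Set.mem_ofPred_eq] at ha hb
    have := ha.2
    have := hb.2
    simp only at h
    omega) (by
    intro n hn
    rw [Finset.mem_filter] at hn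
    have h2 : ((n - ⌈x⌉).toNat : ℤ) = n - ⌈x⌉ := Int.toNat_of_nonneg (by have := hn.2; omega)
    have h3 : (((n - ⌈x⌉).toNat : ℕ) : ℝ) = (n : ℝ) - (⌈x⌉ : ℝ) := by exact_mod_cast h2
    rw [h3]
    have h4 := Int.le_ceil x
    have h5 : ((⌈x⌉ : ℤ) : ℝ) < x + 1 := Int.ceil_lt_add_one x
    have h6 : (⌈x⌉ : ℝ) ≤ (n : ℝ) := by exact_mod_cast hn.2
    exact le_trans (by linarith) (le_abs_self _))
  have h2 := key (F.filter fun n => ¬ ⌈x⌉ ≤ n) (fun n => (⌈x⌉ - 1 - n).toNat) (by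
    intro a ha b hb h
    simp only [coe_filter, Set.mem_ofPred_eq] at ha hb
    have := ha.2
    have := hb.2
    simp only at h
    omega) (by
    intro n hn
    rw [Finset.mem_filter] at hn
    have h2 : ((⌈x⌉ - 1 - n).toNat : ℤ) = ⌈x⌉ - 1 - n :=
      Int.toNat_of_nonneg (by have := hn.2; omega)
    have h3 : (((⌈x⌉ - 1 - n).toNat : ℕ) : ℝ) = (⌈x⌉ : ℝ) - 1 - n := by exact_mod_cast h2
    rw [h3]
    have h5 : ((⌈x⌉ : ℤ) : ℝ) < x + 1 := Int.ceil_lt_add_one x
    exact le_trans (by linarith) (neg_le_abs _))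
  rw [← Finset.sum_filter_add_sum_filter_not F (fun n => ⌈x⌉ ≤ n)]
  linarith

end CEN25

open CEN25 in
theorem cen : CENStmt := by
  classical
  refine ⟨Real.log 4, Real.log_nonneg (by norm_num), ?_⟩
  intro Ω δ _ q W X x K hq h1 hx hK hK1
  -- the values as functions of `W`
  obtain ⟨f, hf⟩ : ∃ f : δ → ℝ, ∀ w, 0 < q w → f (W w) = x w := by
    refine ⟨fun z => if h : ∃ w, 0 < q w ∧ W w = z then x h.choose else 0, fun w hw => ?_⟩
    have h : ∃ w', 0 < q w' ∧ W w' = W w := ⟨w, hw, rfl⟩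
    simp only [dif_pos h]
    exact hx _ _ h.choose_spec.1 hw h.choose_spec.2
  obtain ⟨g, hg⟩ : ∃ g : δ → ℝ, ∀ w, 0 < q w → g (W w) = K w := by
    refine ⟨fun z => if h : ∃ w, 0 < q w ∧ W w = z then K h.choose else 0, fun w hw => ?_⟩
    have h : ∃ w', 0 < q w' ∧ W w' = W w := ⟨w, hw, rfl⟩
    simp only [dif_pos h]
    exact hK _ _ h.choose_spec.1 hw h.choose_spec.2
  have h := CH_le_cross hq h1 X W
    (fun z n => (4 : ℝ)⁻¹ * (|g z| / (|g z| + |(n : ℝ) - f z|) ^ 2))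
    (fun w hw => by
      have h2 := hK1 w hw
      rw [hg w hw]
      have h3 : 0 < |K w| := abs_pos.2 (by linarith)
      positivity)
    (fun _ _ => by positivity)
    (fun w hw F => by
      have h2 := hK1 w hw
      rw [← Finset.mul_sum, hg w hw, hf w hw, abs_of_pos (by linarith : 0 < K w)]
      have h3 := sum_int h2 (x w) F
      linarith)
  refine h.trans ?_
  have e1 : Ex q (fun w => -Real.log ((4 : ℝ)⁻¹ * (|g (W w)| /
      (|g (W w)| + |(X w : ℝ) - f (W w)|) ^ 2))) ≤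
      Ex q (fun w => (Real.log 4 + Real.log (K w)) +
        2 * Real.log (1 + |(X w : ℝ) - x w| / K w)) := by
    refine Ex_mono hq fun w hw => ?_
    have h2 : 0 < K w := by linarith [hK1 w hw]
    rw [hg w hw, hf w hw, abs_of_pos h2]
    have h3 : 0 ≤ |(X w : ℝ) - x w| := abs_nonneg _
    have h4 : K w / (K w + |(X w : ℝ) - x w|) ^ 2 =
        (K w * (1 + |(X w : ℝ) - x w| / K w) ^ 2)⁻¹ := by
      field_simp
    rw [h4, ← mul_inv, Real.log_inv, neg_neg, Real.log_mul (by norm_num) (by positivity),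
      Real.log_mul h2.ne' (by positivity), Real.log_pow]
    push_cast
    linarith
  refine e1.trans (le_of_eq ?_)
  rw [Ex_add, Ex_add, Ex_const h1, Ex_smul]
  ring

end Pool.KTH
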