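import Pool.Agent.H12.KTH.Stmts

/-!
# Row ARB of the board `kth`: the arithmetic of level two
-/

set_option autoImplicit false

namespace Pool.KTH

open Finset Real
open Pool.Agent.H49.Ent Pool.Agent.H32.Dense
open Pool.Agent.H24.KTH (dsv lvv lev cap Yf kp LevOne LevPlus LevZero)

/-- The arithmetic of level two, with `κ = k μ`. -/
private lemma arb_core {κ k μ L sb y xh yh mh e1 et12 q rh xi ic iy LL SL eL hL LI SI eI hI τ ε : ℝ}
    (hk0 : 0 ≤ k) (hkμ : k * μ = κ) (hk2 : 2 * k ≤ (0.6752 : ℝ))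
    (hε : 0 ≤ ε) (hmh : mh ≤ 2 * sb) (hrh : rh ≤ 1) (hq : q ≤ 1)
    (het : et12 ≤ 1 + ε) (he1 : 0 ≤ e1)
    (ALL : 2 * L + 4 - sb - 2 * y - xh - e1 - LL ≤ ε)
    (ALS : SL - (mh - xh - e1 - y) ≤ ε)
    (AIL : 3 * L + 6 - 2 * sb - q - y - yh - et12 - LI ≤ ε)
    (AIS : SI - (sb + xh - yh - xi) ≤ ε)
    (AIY : iy - (yh - 2 * L - 6 + 2 * sb + q + y + et12) ≤ ε)
    (AX1 : q - xi ≤ ε) (AX2 : et12 - xi ≤ ε)
    (AYY : mh + L + 2 - 2 * sb - rh - yh ≤ ε)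
    (ACO : ic - (2 * sb + xh - 2 * L - 4 + y) ≤ ε)
    (PL : LL ≤ 1.6752 * SL + ε)
    (QL : LL ≤ 1.6752 * SL - κ * (1 - eL) - 0.6752 * hL + ε) (hL0 : 0 ≤ hL)
    (hL1 : μ / 2 * eL - (τ / 2 + ic) - ε ≤ hL)
    (QI : LI ≤ 1.6752 * SI - κ * (1 - eI) - 0.6752 * hI + ε) (hI0 : 0 ≤ hI)
    (hI1 : μ * eI - (τ + iy) - ε ≤ hI) :
    5.83189504 * (L + 2) ≤ 9.76928512 * sb + 0.6752 + 1.21930496 * y - 2.3504 * κ +
      1.6752 * (k * max 0 (τ + 2 * ((5.7008 * sb - 3.3504 * (L + 2) + y) / 0.6752))) +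
      0.6752 * (k * max 0 (τ + (2 * sb - L - 3 + y))) + 100 * ε := by
  set ic' : ℝ := (5.7008 * sb - 3.3504 * (L + 2) + y) / 0.6752 with hic'
  have eic : 0.6752 * ic' = 5.7008 * sb - 3.3504 * (L + 2) + y := by
    rw [hic']; field_simp
  set M1 : ℝ := max 0 (τ + 2 * ic') with hM1
  set M2 : ℝ := max 0 (τ + (2 * sb - L - 3 + y)) with hM2
  have m1 : τ + 2 * ic' ≤ M1 := le_max_right _ _
  have m2 : τ + (2 * sb - L - 3 + y) ≤ M2 := le_max_right _ _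
  -- the bound of `ic`
  have bic : ic ≤ ic' + 7 * ε := by
    linarith
  -- the bound of `iy`
  have biy : iy ≤ (2 * sb - L - 3 + y) + (yh - (mh + L + 2 - 2 * sb - rh) + (1 - rh)) + 2 * ε := by
    linarith
  -- the family `I`
  have p1 : k * hI ≤ 0.6752 * hI := mul_le_mul_of_nonneg_right (by linarith) hI0
  have p2 : k * (μ * eI - (τ + iy) - ε) ≤ k * hI := mul_le_mul_of_nonneg_left hI1 hk0
  have p3 : k * (τ + iy) ≤
      k * (M2 + (yh - (mh + L + 2 - 2 * sb - rh) + (1 - rh)) + 2 * ε) :=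
    mul_le_mul_of_nonneg_left (by linarith) hk0
  have p4 : 0 ≤ (0.6752 - k) * (yh - (mh + L + 2 - 2 * sb - rh) + (1 - rh) + ε) :=
    mul_nonneg (by linarith) (by linarith)
  have pk : k * ε ≤ 0.3376 * ε := mul_le_mul_of_nonneg_right (by linarith) hε
  have e2 : k * (μ * eI - (τ + iy) - ε) = κ * eI - k * (τ + iy) - k * ε := by
    rw [← hkμ]; ring
  -- the family `L`
  have q1 : 2 * k * hL ≤ 0.6752 * hL := mul_le_mul_of_nonneg_right hk2 hL0
  have q2 : 2 * k * (μ / 2 * eL - (τ / 2 + ic) - ε) ≤ 2 * k * hL :=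
    mul_le_mul_of_nonneg_left hL1 (by linarith)
  have q3 : k * (τ + 2 * ic) ≤ k * (M1 + 14 * ε) :=
    mul_le_mul_of_nonneg_left (by linarith) hk0
  have e3 : 2 * k * (μ / 2 * eL - (τ / 2 + ic) - ε) = κ * eL - k * (τ + 2 * ic) - 2 * (k * ε) := by
    rw [← hkμ]; ring
  have e4 : k * (M1 + 14 * ε) = k * M1 + 14 * (k * ε) := by ring
  have e5 : k * (M2 + (yh - (mh + L + 2 - 2 * sb - rh) + (1 - rh)) + 2 * ε) =
      k * M2 + k * (yh - (mh + L + 2 - 2 * sb - rh) + (1 - rh)) + 2 * (k * ε) := by ring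
  have e6 : (0.6752 - k) * (yh - (mh + L + 2 - 2 * sb - rh) + (1 - rh) + ε) =
      0.6752 * (yh - (mh + L + 2 - 2 * sb - rh) + (1 - rh) + ε) -
        k * (yh - (mh + L + 2 - 2 * sb - rh) + (1 - rh)) - k * ε := by ring
  have e7 : κ * (1 - eI) = κ - κ * eI := by ring
  have e8 : κ * (1 - eL) = κ - κ * eL := by ring
  -- `a S - L` of the two families
  have cL : κ - k * M1 - 7 * ε ≤ 1.6752 * SL - LL := by
    rw [e8] at QL
    rw [e3] at q2
    rw [e4] at q3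
    linarith
  have cI : κ - k * M2 - 0.6752 * (yh - (mh + L + 2 - 2 * sb - rh) + (1 - rh)) - 7 * ε ≤
      1.6752 * SI - LI := by
    rw [e7] at QI
    rw [e2] at p2
    rw [e5] at p3
    rw [e6] at p4
    linarith
  linarith

/-- **ARB.** -/
theorem arb : ARBStmt := by
  intro μ hμ
  have haa : aa = 1.6752 := rfl
  have hκ : 0 < kp aa := by unfold kp aa; norm_num
  have ha1 : (0 : ℝ) < aa - 1 := by rw [haa]; norm_num
  have hμ0 : 0 < μ := lt_of_lt_of_le (by positivity) hμ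
  have hk0 : 0 ≤ kp aa / μ := by positivity
  have hkμ : kp aa / μ * μ = kp aa := div_mul_cancel₀ _ hμ0.ne'
  have hk2 : 2 * (kp aa / μ) ≤ (0.6752 : ℝ) := by
    have h1 : 2 * kp aa ≤ μ * (aa - 1) := by
      rw [div_le_iff₀ ha1] at hμ; exact hμ
    have h2 : 2 * (kp aa / μ) = 2 * kp aa / μ := by ring
    rw [h2, div_le_iff₀ hμ0]
    rw [haa] at h1 ⊢
    linarith
  refine ⟨100, by norm_num, ?_⟩
  intro L sb y xh yh mh e1 et12 q rh xi ic iy LL SL eL hL LI SI eI hI τ ε hε _ hmh hrh hq het he1 _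
    ALL ALS AIL AIS AIY AX1 AX2 AYY ACO PL _ QL hL0 hL1 QI hI0 hI1
  have hd : DD aa = 5.83189504 := by rw [haa]; unfold DD; norm_num
  have hp : PP aa = 9.76928512 := by rw [haa]; unfold PP; norm_num
  have hkh : kh aa = 1.21930496 := by rw [haa]; unfold kh; norm_num
  have c1 : (4 * aa - 1 : ℝ) = 5.7008 := by rw [haa]; norm_num
  have c2 : (2 * aa : ℝ) = 3.3504 := by rw [haa]; norm_num
  have c3 : (aa - 1 : ℝ) = 0.6752 := by rw [haa]; norm_num
  have c4 : (2 * aa - 1 : ℝ) = 2.3504 := by rw [haa]; norm_num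
  have c5 : ∀ x : ℝ, aa * kp aa / μ * x = 1.6752 * (kp aa / μ * x) := by
    intro x; rw [haa]; ring
  have c6 : ∀ x : ℝ, (0.6752 : ℝ) * kp aa / μ * x = 0.6752 * (kp aa / μ * x) := by
    intro x; ring
  rw [c3] at QL QI
  have hPL : LL ≤ 1.6752 * SL + ε := by rw [haa] at PL; exact PL
  have hQL : LL ≤ 1.6752 * SL - kp aa * (1 - eL) - 0.6752 * hL + ε := by
    have h := QL
    have h' : aa * SL = 1.6752 * SL := by rw [haa]
    rw [h'] at h; exact h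
  have hQI : LI ≤ 1.6752 * SI - kp aa * (1 - eI) - 0.6752 * hI + ε := by
    have h := QI
    have h' : aa * SI = 1.6752 * SI := by rw [haa]
    rw [h'] at h; exact h
  rw [hd, hp, hkh, c1, c4, c2, c3, c5, c6]
  exact arb_core hk0 hkμ hk2 hε hmh hrh hq het he1 ALL ALS AIL AIS AIY AX1 AX2 AYY ACO hPL
    hQL hL0 hL1 hQI hI0 hI1

end Pool.KTH
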